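import Pool.Agent.Lib_helper9.Cartan.Defs
import Pool.Agent.Lib_helper9.Cartan.Simple

/-!
# MP_450614_al, Q1: a negative answer

For every `n ≥ 3` the connected simple Lie group `SL(n, ℝ)` (real rank `n - 1 ≥ 2`) contains a
Zariski dense discrete subgroup `Γ` of infinite covolume and a Cartan subgroup `A` (the positive
diagonal matrices) such that `A ∩ Γ` is a lattice in `A`.

`Γ` is generated by the diagonal matrices with entries integer powers of `M = 16 n` and by the
transvection `1 + 24 n (1, …, 1) ⊗ (1, …, 1, -(n-1))`.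
-/

namespace Pool.Agent.Results.MP_450614_al.CartanLattice

open Pool.Agent.CartanLattice

attribute [local instance 100] LieRing.ofAssociativeRing

theorem result : ∀ n : ℕ, 3 ≤ n →
    -- `SL(n, ℝ)` is connected and its Lie algebra is simple
    ConnectedSpace (SLR n) ∧ LieAlgebra.IsSimple ℝ (slR n) ∧
    ∃ Γ A : Subgroup (SLR n),
      -- `A` is a Cartan subgroup, isomorphic to `ℝ^(n-1)`
      IsCartan A ∧ Nonempty (A ≃ₜ* Multiplicative (Fin (n - 1) → ℝ)) ∧
      -- `Γ` is discrete, Zariski dense, of infinite covolume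
      DiscreteTopology Γ ∧ IsZariskiDense Γ ∧ HasInfiniteCovolume Γ ∧
      -- `A ∩ Γ` is a lattice in `A`
      IsCocompactLattice (Γ.subgroupOf A) := by
  intro n hn
  obtain ⟨m, rfl⟩ : ∃ m, n = m + 1 := ⟨n - 1, by omega⟩
  refine ⟨connectedSpace_SL (by omega), sl_simple (by omega), Gam m, posDiag (m + 1),
    isCartan_posDiag, ⟨posDiagEquiv⟩, discrete_Gam (by omega), Gam_zariskiDense (by omega),
    Gam_infiniteCovolume (by omega), lattice_in_posDiag (by omega)⟩

end Pool.Agent.Results.MP_450614_al.CartanLattice
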